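import Pool.Agent.UMG.StmtsB

/-!
# Squad UMG, row PAI: matchings in which the first bundle is matched with the second one
-/

set_option autoImplicit false

namespace Pool.Agent.UMG.B.H98

open Finset Pool.Agent.UMG Pool.Agent.UMG.B

theorem card_split {H1 H2 : Type} [Finite H1] [Finite H2] (P : H1 ⊕ H2 → Prop) :
    Nat.card {h // P h} = Nat.card {h // P (Sum.inl h)} + Nat.card {h // P (Sum.inr h)} := by
  rw [← Nat.card_sum]
  refine Nat.card_congr ⟨fun x => match x with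
    | ⟨Sum.inl h, hh⟩ => Sum.inl ⟨h, hh⟩
    | ⟨Sum.inr h, hh⟩ => Sum.inr ⟨h, hh⟩, fun y => match y with
    | Sum.inl h => ⟨Sum.inl h.1, h.2⟩
    | Sum.inr h => ⟨Sum.inr h.1, h.2⟩, ?_, ?_⟩
  · rintro ⟨h | h, hh⟩ <;> rfl
  · rintro (h | h) <;> rfl

theorem core (hPAM : PamStmt) (j j' : ℕ) (hjj : j' = j) (hj : 0 < j) (r : ℕ) (hr : r < j')
    (H : Type) [Finite H] (g : Equiv.Perm H) (ν : H → ℕ) (ν1 : Fin j → ℕ) (F : ℕ → ℕ)
    (q1 q2 : ℕ → ℕ → ℕ)
    (h1 : ∀ v w, Nat.card {t : Fin j // ν1 t = v ∧ F (((finRotate j) ^ r) t : ℕ) = w} = q1 v w)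
    (h2 : ∀ v w, Nat.card {t : Fin j // F (t : ℕ) = v ∧ ν1 (((finRotate j) ^ (j - r)) t) = w} =
      q2 v w) :
    EqD (fun m : {m : Mt (Equiv.sumCongr (finRotate j) (Equiv.sumCongr (finRotate j') g)) //
        m.1 (Sum.inl ⟨0, hj⟩) = Sum.inr (Sum.inl ⟨r, hr⟩)} =>
          QQ (Sum.elim ν1 (Sum.elim (fun t : Fin j' => F (t : ℕ)) ν)) m.1.1)
      (fun m : Mt g => q1 + q2 + QQ ν m.1) := by
  subst hjj
  obtain ⟨e, he⟩ := hPAM j' r hj hr H g
  refine ⟨e, fun m => ?_⟩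
  obtain ⟨e1, e2, e3⟩ := he m
  funext v w
  have h3 : QQ (Sum.elim ν1 (Sum.elim (fun t : Fin j' => F (t : ℕ)) ν)) m.1.1 v w =
      q1 v w + (q2 v w + QQ ν (e m).1 v w) := by
    rw [← h1, ← h2]
    unfold QQ
    rw [card_split, card_split]
    simp only [Sum.elim_inl, Sum.elim_inr, e1, e2, e3]
  show q1 v w + q2 v w + QQ ν (e m).1 v w =
    QQ (Sum.elim ν1 (Sum.elim (fun t : Fin j' => F (t : ℕ)) ν)) m.1.1 v w
  rw [h3]
  omega

/-- **PAI** -/
theorem pai (hPAM : PamStmt) (hPAC : PacStmt) : PaiStmt := by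
  intro b b' hb r hr hbb H _ g ν
  have h := core hPAM (bsz b) (bsz b') hbb hb r hr H g ν (nu1 b) (fun u => b'.1 + u % b'.2.1)
    (fun v w => (pairE (bsz b) r b b').count (v, w))
    (fun v w => (pairE (bsz b) r b b').count (w, v))
    (fun v w => (hPAC b b' r hbb (by omega) v w).1) (fun v w => (hPAC b b' r hbb (by omega) v w).2)
  exact h

end Pool.Agent.UMG.B.H98
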