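import Pool.Agent.UMG.StmtsA

/-!
# Squad UMG, row F1L: lower bound for the number of matchings of `M` points
-/

set_option autoImplicit false

namespace Pool.Agent.UMG.H98

open Finset

/-- **F1L** -/
theorem f1l (hSQB : SqbStmt) (hFLO : FloStmt) : F1lStmt := by
  intro M hM
  have h1 := hFLO M 1 M le_rfl le_rfl (Or.inr hM.two_dvd)
  have h2 : ∏ i ∈ range M, Real.sqrt ((i : ℝ) + 1) ≤ Fh M 1 M := by
    unfold Fh
    refine Finset.prod_le_prod (fun i _ => Real.sqrt_nonneg _) fun i _ => ?_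
    have h3 := (hSQB M 1 (i + 1)).1
    rw [if_neg (by decide)] at h3
    push_cast at h3
    rw [one_mul, add_zero] at h3
    exact h3.le
  have h4 : (Real.sqrt M / Real.exp (1 / 2)) ^ M ≤ ∏ i ∈ range M, Real.sqrt ((i : ℝ) + 1) := by
    have h5 : 0 ≤ ∏ i ∈ range M, Real.sqrt ((i : ℝ) + 1) :=
      Finset.prod_nonneg fun i _ => Real.sqrt_nonneg _
    have h6 : (∏ i ∈ range M, Real.sqrt ((i : ℝ) + 1)) ^ 2 = (M.factorial : ℝ) := by
      rw [← Finset.prod_pow, ← Finset.prod_range_add_one_eq_factorial, Nat.cast_prod]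
      refine Finset.prod_congr rfl fun i _ => ?_
      rw [Real.sq_sqrt (by positivity)]
      push_cast
      rfl
    have h7 : ((Real.sqrt M / Real.exp (1 / 2)) ^ M) ^ 2 = (M : ℝ) ^ M / Real.exp M := by
      rw [← pow_mul, Nat.mul_comm, pow_mul, div_pow, Real.sq_sqrt (Nat.cast_nonneg M), div_pow,
        ← Real.exp_nat_mul, ← Real.exp_nat_mul]
      congr 2
      push_cast
      ring
    have h8 : (M : ℝ) ^ M / Real.exp M ≤ (M.factorial : ℝ) := by
      have h9 := Real.pow_div_factorial_le_exp (M : ℝ) (Nat.cast_nonneg M) M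
      have h10 : (0 : ℝ) < M.factorial := by exact_mod_cast M.factorial_pos
      rw [div_le_iff₀ h10] at h9
      rw [div_le_iff₀ (Real.exp_pos _)]
      linarith
    rw [← h6, ← h7] at h8
    exact le_of_sq_le_sq h8 h5
  have h11 : (3 : ℝ) * ((1 : ℕ) : ℝ) * ((M : ℝ) + 1) * Fr 1 M = 3 * ((M : ℝ) + 1) * Fr 1 M := by
    push_cast
    ring
  rw [← h11]
  exact h4.trans (h2.trans h1)

end Pool.Agent.UMG.H98
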