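import Pool.Agent.UMG.StmtsD

/-!
# Squad UMG, row GCD: congruence of `gsum`
-/

set_option autoImplicit false

namespace Pool.Agent.UMG.D.H98

open Finset

theorem csum_congr {R : Type} [CommSemiring R] : ∀ (n k : ℕ), k ≤ n → ∀ Ψ Ψ' : List ℕ → R,
    (∀ p : List ℕ, p.sum = k → (∀ i ∈ p, 1 ≤ i) → Ψ p = Ψ' p) → csum k Ψ = csum k Ψ' := by
  intro n
  induction n with
  | zero =>
    intro k hk Ψ Ψ' h
    obtain rfl : k = 0 := by omega
    rw [csum, csum]
    exact h [] rfl (fun i hi => absurd hi List.not_mem_nil)
  | succ n ih =>
    intro k hk Ψ Ψ' h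
    cases k with
    | zero =>
      rw [csum, csum]
      exact h [] rfl (fun i hi => absurd hi List.not_mem_nil)
    | succ k =>
      rw [csum, csum]
      refine Finset.sum_congr rfl fun i hi => ?_
      rw [Finset.mem_range] at hi
      congr 1
      refine ih (k - i) (by omega) _ _ fun p hp hp1 => ?_
      refine h ((i + 1) :: p) ?_ ?_
      · rw [List.sum_cons, hp]
        omega
      · intro j hj
        rcases List.mem_cons.1 hj with rfl | hj
        · omega
        · exact hp1 j hj

/-- the first elements of a nondecreasing list -/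
theorem drop_eq {k : ℕ} : ∀ (i : ℕ) (t : List ℕ), (k :: t).Pairwise (· ≤ ·) → i ≤ t.count k →
    t = List.replicate i k ++ t.drop i := by
  intro i
  induction i with
  | zero => intro t _ _; simp
  | succ i ih =>
    intro t ht hi
    cases t with
    | nil => simp at hi
    | cons a t =>
      have h1 : k ≤ a := (List.pairwise_cons.1 ht).1 a List.mem_cons_self
      have h2 : (a :: t).Pairwise (· ≤ ·) := (List.pairwise_cons.1 ht).2
      have h3 : a = k := by
        by_contra hne
        have h4 : k ∉ a :: t := by
          intro hk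
          rcases List.mem_cons.1 hk with h | h
          · exact hne h.symm
          · have := (List.pairwise_cons.1 h2).1 k h
            omega
        rw [List.count_eq_zero_of_not_mem h4] at hi
        omega
      subst h3
      rw [List.count_cons_self] at hi
      have h5 := ih t h2 (by omega)
      rw [List.replicate_succ, List.drop_succ_cons, List.cons_append, ← h5]

theorem gsum_congr {R : Type} [CommSemiring R] : ∀ (n : ℕ) (d : List ℕ), d.length ≤ n →
    ∀ Ψ Ψ' : Code → R, d.Pairwise (· ≤ ·) → (∀ c, Cd d c → Ψ c = Ψ' c) → gsum d Ψ = gsum d Ψ' := by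
  intro n
  induction n with
  | zero =>
    intro d hd Ψ Ψ' _ h
    obtain rfl : d = [] := List.length_eq_zero_iff.1 (by omega)
    rw [gsum, gsum]
    exact h [] rfl
  | succ n ih =>
    intro d hd Ψ Ψ' hs h
    cases d with
    | nil =>
      rw [gsum, gsum]
      exact h [] rfl
    | cons k t =>
      rw [gsum, gsum]
      refine Finset.sum_congr rfl fun i hi => ?_
      rw [Finset.mem_range] at hi
      congr 1
      refine csum_congr k k le_rfl _ _ fun p hp hp1 => ?_
      have h1 := drop_eq i t hs (by omega)
      refine ih (t.drop i) ?_ _ _ ?_ ?_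
      · rw [List.length_drop]
        rw [List.length_cons] at hd
        omega
      · exact List.Pairwise.sublist (List.drop_sublist i t) (List.pairwise_cons.1 hs).2
      · intro c hc
        refine h ((i + 1, p) :: c) ⟨k, t.drop i, ?_, hp, by omega, hp1, hc⟩
        rw [List.replicate_succ, List.cons_append, ← h1]

/-- **GCD** -/
theorem gcd : GcdStmt := by
  intro R _ d Ψ Ψ' hs h
  exact gsum_congr d.length d le_rfl Ψ Ψ' hs h

end Pool.Agent.UMG.D.H98
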